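import Mathlib

namespace Pool.Agent.H.MP_92077f_co

open Classical in
/-- `g(N[v])` -/
noncomputable def nsum {V : Type} [Fintype V] (G : SimpleGraph V) (g : V → ℕ) (v : V) : ℕ :=
  ∑ u, if u = v ∨ G.Adj v u then g u else 0

/-- minimal `k`-dominating function -/
def MinDom {V : Type} [Fintype V] (G : SimpleGraph V) (k : ℕ) (g : V → ℕ) : Prop :=
  (∀ v, g v ≤ k) ∧ (∀ v, k ≤ nsum G g v) ∧
    ∀ v, 0 < g v → ∃ u, (u = v ∨ G.Adj v u) ∧ nsum G g u = k

/-- `m` is the upper `k`-domination number -/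
def IsUpper {V : Type} [Fintype V] (G : SimpleGraph V) (k m : ℕ) : Prop :=
  IsGreatest {s | ∃ g, MinDom G k g ∧ ∑ v, g v = s} m

end Pool.Agent.H.MP_92077f_co
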