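import Pool.Agent.H.MP_92077f_co.Defs

namespace Pool.Agent.H.MP_92077f_co

open Finset

section general
variable {V : Type} [Fintype V] (G : SimpleGraph V)

theorem exists_minDom (k : ℕ) : ∃ g, MinDom G k g := by
  classical
  have hex : ∃ m, ∃ g : V → ℕ, (∀ v, g v ≤ k) ∧ (∀ v, k ≤ nsum G g v) ∧ ∑ v, g v = m := by
    refine ⟨_, fun _ => k, fun _ => le_rfl, fun v => ?_, rfl⟩
    unfold nsum
    refine le_trans ?_ (single_le_sum (f := fun u => if u = v ∨ G.Adj v u then k else 0)
      (fun _ _ => Nat.zero_le _) (mem_univ v))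
    simp
  obtain ⟨g, h1, h2, h3⟩ := Nat.find_spec hex
  refine ⟨g, h1, h2, fun v hv => ?_⟩
  by_contra hno
  push Not at hno
  let g' : V → ℕ := fun u => if u = v then g v - 1 else g u
  have hsum : ∀ (p : V → Prop) [DecidablePred p],
      (∑ u, if p u then g u else 0) = (∑ u, if p u then g' u else 0) + if p v then 1 else 0 := by
    intro p _
    have : (if p v then 1 else 0) = ∑ u, if u = v then (if p v then 1 else 0) else 0 := by simp
    rw [this, ← sum_add_distrib]
    refine sum_congr rfl fun u _ => ?_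
    by_cases hu : u = v
    · subst hu; by_cases hp : p u <;> simp [g', hp]; omega
    · simp [g', hu]
  have hlt : ∑ u, g' u < Nat.find hex := by
    have := hsum (fun _ => True)
    simp at this
    omega
  refine Nat.find_min hex hlt ⟨g', fun u => ?_, fun w => ?_, rfl⟩
  · by_cases hu : u = v
    · subst hu; have := h1 u; simp [g']; omega
    · simpa [g', hu] using h1 u
  · have h := hsum (fun u => u = w ∨ G.Adj w u)
    have h2w := h2 w
    by_cases hw : v = w ∨ G.Adj w v
    · have hne := hno w (by
        rcases hw with h | h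
        · exact Or.inl h.symm
        · exact Or.inr h.symm)
      unfold nsum at *
      rw [if_pos hw] at h
      omega
    · unfold nsum at *
      rw [if_neg hw] at h
      omega

theorem exists_upper (k : ℕ) : ∃ m, IsUpper G k m := by
  classical
  have hne : {s | ∃ g, MinDom G k g ∧ ∑ v, g v = s}.Nonempty := by
    obtain ⟨g, hg⟩ := exists_minDom G k
    exact ⟨_, g, hg, rfl⟩
  have hb : BddAbove {s | ∃ g, MinDom G k g ∧ ∑ v, g v = s} := by
    refine ⟨∑ _v : V, k, ?_⟩
    rintro s ⟨g, hg, rfl⟩
    exact sum_le_sum fun v _ => hg.1 v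
  exact ⟨_, Nat.sSup_mem hne hb, fun s hs => le_csSup hb hs⟩

end general

@[irreducible] def N : ℕ := 100
theorem N_eq : N = 100 := by unfold N; rfl
abbrev P := Fin N × Fin N
abbrev S := Fin N ⊕ P
abbrev E := P ⊕ Finset (Fin N)
abbrev K := Option (Fin 4 × S)
abbrev U := Fin 4 × E
abbrev V := K ⊕ U

def inc : E → S → Prop
  | .inl p, .inl a => a = p.1 ∨ a = p.2
  | .inl p, .inr q => q = p
  | .inr s, .inl a => a ∈ s ∨ s.card < 3
  | .inr _, .inr _ => False

def link (k : K) (u : U) : Prop := ∃ s, k = some (u.1, s) ∧ inc u.2 s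

def adj : V → V → Prop
  | .inl k, .inl k' => k ≠ k'
  | .inl k, .inr u => link k u
  | .inr u, .inl k => link k u
  | .inr u, .inr u' => u ≠ u' ∧ u'.1 ≠ u.1 + 2

theorem near_symm : ∀ i j : Fin 4, j ≠ i + 2 → i ≠ j + 2 := by decide
theorem near_refl : ∀ i : Fin 4, i ≠ i + 2 := by decide

def G : SimpleGraph V where
  Adj := adj
  symm := ⟨by
    rintro (k | u) (k' | u') h
    · exact Ne.symm h
    · exact h
    · exact h
    · exact ⟨Ne.symm h.1, near_symm _ _ h.2⟩⟩
  loopless := ⟨by
    rintro (k | u) h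
    · exact h rfl
    · exact h.1 rfl⟩

def hK (h : V → ℕ) : ℕ := ∑ k : K, h (.inl k)
def y (h : V → ℕ) (j : Fin 4) : ℕ := ∑ e : E, h (.inr (j, e))
def Y (h : V → ℕ) (i : Fin 4) : ℕ := ∑ j, if j ≠ i + 2 then y h j else 0

open Classical in
theorem nsum_inl (h : V → ℕ) (k : K) :
    nsum G h (.inl k) = hK h + ∑ u : U, if link k u then h (.inr u) else 0 := by
  unfold nsum hK
  rw [Fintype.sum_sum_type]
  congr 1
  · refine sum_congr rfl fun k' _ => if_pos ?_
    by_cases hk : k' = k
    · left; rw [hk]
    · right; exact fun h => hk h.symm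
  · refine sum_congr rfl fun u _ => ?_
    have : ((Sum.inr u : V) = .inl k ∨ G.Adj (.inl k) (.inr u)) ↔ link k u := by
      constructor
      · rintro (h | h)
        · cases h
        · exact h
      · exact fun h => Or.inr h
    simp only [this]

open Classical in
theorem nsum_inr (h : V → ℕ) (i : Fin 4) (e : E) :
    nsum G h (.inr (i, e)) = (∑ s : S, if inc e s then h (.inl (some (i, s))) else 0) + Y h i := by
  unfold nsum Y y
  rw [Fintype.sum_sum_type]
  congr 1
  · have h1 : ∀ k : K, ((Sum.inl k : V) = .inr (i, e) ∨ G.Adj (.inr (i, e)) (.inl k)) ↔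
        link k (i, e) := by
      intro k
      constructor
      · rintro (h | h)
        · cases h
        · exact h
      · exact fun h => Or.inr h
    simp only [h1]
    rw [Fintype.sum_option, Fintype.sum_prod_type]
    have h2 : ¬ link none (i, e) := by rintro ⟨s, h, -⟩; cases h
    rw [if_neg h2, zero_add, Fintype.sum_eq_single i]
    · refine sum_congr rfl fun s _ => ?_
      have : link (some (i, s)) (i, e) ↔ inc e s := by
        constructor
        · rintro ⟨s', h, h'⟩
          cases h; exact h'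
        · exact fun h => ⟨s, rfl, h⟩
      simp only [this]
    · intro j hj
      refine sum_eq_zero fun s _ => if_neg ?_
      rintro ⟨s', h, -⟩
      cases h; exact hj rfl
  · rw [Fintype.sum_prod_type]
    refine sum_congr rfl fun j _ => ?_
    have h1 : ∀ e' : E, ((Sum.inr (j, e') : V) = .inr (i, e) ∨ G.Adj (.inr (i, e)) (.inr (j, e'))) ↔
        j ≠ i + 2 := by
      intro e'
      constructor
      · rintro (h | h)
        · cases h; exact near_refl _
        · exact h.2
      · intro h
        by_cases hh : (j, e') = (i, e)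
        · left; rw [hh]
        · right; exact ⟨fun h => hh h.symm, h⟩
    simp only [h1]
    split_ifs <;> simp

theorem nsum_none (h : V → ℕ) : nsum G h (.inl none) = hK h := by
  rw [nsum_inl, sum_eq_zero, add_zero]
  intro u _
  refine if_neg ?_
  rintro ⟨s, h, -⟩; cases h

theorem nsum_pair (h : V → ℕ) (i : Fin 4) (p : P) :
    nsum G h (.inr (i, .inl p)) =
      (∑ a ∈ ({p.1, p.2} : Finset (Fin N)), h (.inl (some (i, .inl a)))) +
        h (.inl (some (i, .inr p))) + Y h i := by
  rw [nsum_inr, Fintype.sum_sum_type]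
  congr 2
  · rw [← sum_filter]
    refine sum_congr ?_ fun _ _ => rfl
    ext a; simp [inc]
  · rw [Fintype.sum_eq_single p]
    · exact if_pos rfl
    · intro q hq; exact if_neg hq

theorem nsum_set (h : V → ℕ) (i : Fin 4) (s : Finset (Fin N)) :
    nsum G h (.inr (i, .inr s)) =
      (∑ a ∈ (if s.card < 3 then univ else s), h (.inl (some (i, .inl a)))) + Y h i := by
  rw [nsum_inr, Fintype.sum_sum_type]
  congr 1
  rw [sum_eq_zero (s := (univ : Finset P)) (fun q _ => if_neg (by simp [inc])), add_zero,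
    ← sum_filter]
  refine sum_congr ?_ fun _ _ => rfl
  ext a
  by_cases hs : s.card < 3 <;> simp [inc, hs]

theorem total (h : V → ℕ) : ∑ v, h v = hK h + ∑ j, y h j := by
  unfold hK y
  rw [Fintype.sum_sum_type, Fintype.sum_prod_type]

theorem hK_eq (h : V → ℕ) : hK h = h (.inl none) +
    ∑ i : Fin 4, ((∑ a, h (.inl (some (i, .inl a)))) + ∑ p, h (.inl (some (i, .inr p)))) := by
  unfold hK
  rw [Fintype.sum_option, Fintype.sum_prod_type]
  simp only [Fintype.sum_sum_type]

def g : V → ℕ
  | .inl none => 0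
  | .inl (some (_, .inl _)) => 1
  | .inl (some (_, .inr p)) => if p.1 = p.2 then 2 else 1
  | .inr _ => 0

theorem Yg (i : Fin 4) : Y g i = 0 := by simp [Y, y, g]

theorem hKg : 40000 ≤ hK g := by
  rw [hK_eq]
  have : ∀ i : Fin 4, 10000 ≤ (∑ a, g (.inl (some (i, .inl a)))) + ∑ p, g (.inl (some (i, .inr p))) := by
    intro i
    refine le_trans ?_ (Nat.le_add_left _ _)
    have : ∑ _p : P, 1 ≤ ∑ p, g (.inl (some (i, .inr p))) := by
      refine sum_le_sum fun p _ => ?_
      simp only [g]; split_ifs <;> omega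
    simpa [N_eq] using this
  have h2 := sum_le_sum (s := (univ : Finset (Fin 4))) fun i _ => this i
  simp at h2
  omega

theorem g_pair (i : Fin 4) (p : P) : nsum G g (.inr (i, .inl p)) = 3 := by
  rw [nsum_pair, Yg]
  by_cases hp : p.1 = p.2
  · simp [g, hp]
  · simp [g, hp]

theorem g_min : MinDom G 3 g := by
  refine ⟨?_, ?_, ?_⟩
  · rintro ((_ | ⟨i, a | p⟩) | u) <;> simp only [g] <;> try omega
    split_ifs <;> omega
  · rintro (k | ⟨i, p | s⟩)
    · rw [nsum_inl]; have := hKg; omega
    · rw [g_pair]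
    · rw [nsum_set]
      by_cases hs : s.card < 3
      · simp [g, hs]; have := N_eq; omega
      · simp [g, hs]; omega
  · rintro ((_ | ⟨i, a | p⟩) | u) hv
    · simp [g] at hv
    · exact ⟨.inr (i, .inl (a, a)), Or.inr ⟨.inl a, rfl, Or.inl rfl⟩, g_pair _ _⟩
    · exact ⟨.inr (i, .inl p), Or.inr ⟨.inr p, rfl, rfl⟩, g_pair _ _⟩
    · simp [g] at hv

theorem y_le {h : V → ℕ} (H : MinDom G 4 h) (j : Fin 4) : y h j ≤ 4 := by
  classical
  by_cases h0 : y h j = 0
  · omega
  obtain ⟨e, -, he⟩ := exists_ne_zero_of_sum_ne_zero h0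
  obtain ⟨w, hw, ht⟩ := H.2.2 _ (Nat.pos_of_ne_zero he)
  have hk := H.2.1 (.inl none)
  rw [nsum_none] at hk
  rcases w with k | ⟨i, e'⟩
  · exfalso
    have hl : link k (j, e) := by
      rcases hw with h | h
      · cases h
      · exact h
    rw [nsum_inl] at ht
    have := single_le_sum (f := fun u : U => if link k u then h (.inr u) else 0)
      (fun _ _ => Nat.zero_le _) (mem_univ (j, e))
    simp only [if_pos hl] at this
    omega
  · have hn : j ≠ i + 2 := by
      rcases hw with h | h
      · cases h; exact near_refl _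
      · exact near_symm _ _ h.2
    rw [nsum_inr] at ht
    have := single_le_sum (f := fun j => if j ≠ i + 2 then y h j else 0)
      (fun _ _ => Nat.zero_le _) (mem_univ j)
    simp only [if_pos hn] at this
    unfold Y at ht
    omega

theorem x_tight {h : V → ℕ} (H : MinDom G 4 h) (hk : 4 < hK h) (i : Fin 4) (p : P)
    (hp : 0 < h (.inl (some (i, .inr p)))) : nsum G h (.inr (i, .inl p)) = 4 := by
  obtain ⟨w, hw, ht⟩ := H.2.2 _ hp
  rcases w with k | ⟨j, q | s⟩
  · rw [nsum_inl] at ht; omega
  · rcases hw with h | ⟨s, h1, h2⟩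
    · cases h
    · cases h1
      have : p = q := h2
      subst this; exact ht
  · rcases hw with h | ⟨s, h1, h2⟩
    · cases h
    · cases h1; exact h2.elim

theorem x_le {h : V → ℕ} (H : MinDom G 4 h) (hk : 4 < hK h) (i : Fin 4) :
    ∑ p, h (.inl (some (i, .inr p))) ≤ (if Y h i = 1 then 10000 else 0) + 2000 := by
  classical
  let L : Finset (Fin N) := univ.filter fun a => 3 * h (.inl (some (i, .inl a))) + Y h i < 4
  have hL : L.card ≤ 2 := by
    by_contra hc
    obtain ⟨s, hs, hcard⟩ := exists_subset_card_eq (s := L) (n := 3) (by omega)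
    have hd := H.2.1 (.inr (i, .inr s))
    rw [nsum_set, if_neg (by omega)] at hd
    have : ∑ a ∈ s, (3 * h (.inl (some (i, .inl a))) + Y h i) ≤ ∑ _a ∈ s, 3 :=
      sum_le_sum fun a ha => by have := (mem_filter.1 (hs ha)).2; omega
    rw [sum_add_distrib, ← mul_sum] at this
    simp [hcard] at this
    omega
  let B : Finset P := (L ×ˢ univ ∪ univ ×ˢ L) ∪ univ.image fun a : Fin N => (a, a)
  have hB : B.card ≤ 500 := by
    have h1 := card_union_le (L ×ˢ (univ : Finset (Fin N)) ∪ univ ×ˢ L)
      (univ.image fun a : Fin N => (a, a))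
    have h2 := card_union_le (L ×ˢ (univ : Finset (Fin N))) (univ ×ˢ L)
    have h3 := card_image_le (s := (univ : Finset (Fin N))) (f := fun a : Fin N => (a, a))
    rw [card_product, card_product] at h2
    simp only [card_univ, Fintype.card_fin] at h2 h3
    have h4 : L.card * N ≤ 200 :=
      le_trans (Nat.mul_le_mul hL (le_of_eq N_eq)) (by norm_num)
    have h5 : N * L.card ≤ 200 := by rw [mul_comm]; exact h4
    have h6 := N_eq
    exact le_trans h1 (le_trans (add_le_add h2 h3) (by omega))
  have hp : ∀ p : P, h (.inl (some (i, .inr p))) ≤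
      (if Y h i = 1 then 1 else 0) + if p ∈ B then 4 else 0 := by
    intro p
    by_cases hb : p ∈ B
    · rw [if_pos hb]; have := H.1 (.inl (some (i, .inr p))); omega
    rw [if_neg hb]
    by_cases h0 : h (.inl (some (i, .inr p))) = 0
    · omega
    have ht := x_tight H hk i p (Nat.pos_of_ne_zero h0)
    have h1 : p.1 ∉ L := fun hh => hb (by simp [B, mem_product, hh])
    have h2 : p.2 ∉ L := fun hh => hb (by simp [B, mem_product, hh])
    have h3 : p.1 ≠ p.2 := fun hh => hb (by
      refine mem_union_right _ (mem_image.2 ⟨p.1, mem_univ _, ?_⟩)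
      exact Prod.ext rfl hh)
    rw [nsum_pair, sum_pair h3] at ht
    simp only [L, mem_filter, mem_univ, true_and, not_lt] at h1 h2
    split_ifs <;> omega
  refine le_trans (sum_le_sum fun p _ => hp p) ?_
  rw [sum_add_distrib, ← sum_filter (fun p => p ∈ B)]
  have : (univ.filter fun p => p ∈ B) = B := by ext; simp
  rw [this]
  simp only [sum_const, card_univ, Fintype.card_prod, Fintype.card_fin, smul_eq_mul]
  have hN : N * N = 10000 := by rw [N_eq]
  rw [hN]
  split_ifs <;> omega

theorem upper {h : V → ℕ} (H : MinDom G 4 h) : ∑ v, h v < 40000 := by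
  rw [total]
  have hy : ∑ j, y h j ≤ ∑ _j : Fin 4, 4 := sum_le_sum fun j _ => y_le H j
  simp only [sum_const, card_univ, Fintype.card_fin, smul_eq_mul] at hy
  by_cases hk : 4 < hK h
  swap
  · omega
  have hc : ∀ i : Fin 4, ∑ a, h (.inl (some (i, .inl a))) ≤ 400 := by
    intro i
    have : ∑ a, h (.inl (some (i, .inl a))) ≤ ∑ _a : Fin N, 4 := sum_le_sum fun a _ => H.1 _
    simp only [sum_const, card_univ, Fintype.card_fin, smul_eq_mul] at this
    have := N_eq
    omega
  have hz := H.1 (.inl none)
  have hY : Y h 0 + Y h 1 + Y h 2 + Y h 3 = 3 * (y h 0 + y h 1 + y h 2 + y h 3) := by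
    simp only [Y, Fin.sum_univ_four]
    simp +decide
    omega
  have x0 := x_le H hk 0
  have x1 := x_le H hk 1
  have x2 := x_le H hk 2
  have x3 := x_le H hk 3
  have c0 := hc 0
  have c1 := hc 1
  have c2 := hc 2
  have c3 := hc 3
  rw [hK_eq, Fin.sum_univ_four]
  split_ifs at x0 x1 x2 x3 <;> omega

end Pool.Agent.H.MP_92077f_co
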